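import Mathlib

/-!
# Periodic solutions of the beam equation observed along moving points

Definitions for the inverse (observability) inequality along finitely many lines of integer speed.
-/

set_option autoImplicit false

namespace Pool.Agent.X146.BM

open MeasureTheory Filter Topology

/-- The `k`-th term of the solution
`u(t,x) = cp 0 + cm 0 * t + ∑_{k ≠ 0} (cp k * e^{i k² t} + cm k * e^{-i k² t}) * e^{i k x}`
of the beam equation, `2π`-periodic in `x`; the term `k = 0` is `cp 0 + cm 0 * t`. -/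
noncomputable def mode (cp cm : ℤ → ℂ) (k : ℤ) (t x : ℝ) : ℂ :=
  if k = 0 then cp 0 + cm 0 * (t : ℂ)
  else (cp k * Complex.exp (((k : ℝ) ^ 2 * t : ℝ) * Complex.I)
      + cm k * Complex.exp ((-((k : ℝ) ^ 2 * t) : ℝ) * Complex.I))
      * Complex.exp (((k : ℝ) * x : ℝ) * Complex.I)

/-- The partial sum over `|k| ≤ N` of the solution with coefficients `cp`, `cm`. -/
noncomputable def partialSum (cp cm : ℤ → ℂ) (N : ℕ) (t x : ℝ) : ℂ :=
  ∑ k ∈ Finset.Icc (-(N : ℤ)) N, mode cp cm k t x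

/-- `v` is the function `t ↦ u(t₀ + t, x₀ - a t)`: on every bounded interval `(0, S)` it is square
integrable and it is the `L²(0, S)`-limit of the partial sums of the solution along the line. -/
def IsTrace (cp cm : ℤ → ℂ) (a t₀ x₀ : ℝ) (v : ℝ → ℂ) : Prop :=
  ∀ S : ℝ, 0 < S →
    MemLp v 2 (volume.restrict (Set.Ioc 0 S)) ∧
    Tendsto (fun N : ℕ => eLpNorm (fun t => partialSum cp cm N (t₀ + t) (x₀ - a * t) - v t) 2
      (volume.restrict (Set.Ioc 0 S))) atTop (𝓝 0)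

/-- The inverse inequality
`∑ (|cp k|² + |cm k|²) ≤ α * ∑ᵢ ∫₀ᵀ |u(tᵢ + t, xᵢ - aᵢ t)|² dt`
for all solutions `u` with square-summable coefficients, with a constant `α > 0` that does not
depend on the coefficients. -/
def InverseInequality {m : ℕ} (a : Fin m → ℤ) (t₀ x₀ : Fin m → ℝ) (T : ℝ) : Prop :=
  ∃ α : ℝ, 0 < α ∧ ∀ cp cm : ℤ → ℂ,
    Summable (fun k => ‖cp k‖ ^ 2) → Summable (fun k => ‖cm k‖ ^ 2) →
    ∀ v : Fin m → ℝ → ℂ, (∀ i, IsTrace cp cm (a i) (t₀ i) (x₀ i) (v i)) →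
      ∑' k, (‖cp k‖ ^ 2 + ‖cm k‖ ^ 2) ≤ α * ∑ i, ∫ t in (0 : ℝ)..T, ‖v i t‖ ^ 2

/-! ### Telescoping -/

lemma tele_one (f : ℤ → ℂ) (hf : ∀ k, ‖f k‖ ≤ 1) (N : ℕ) (b : ℤ) :
    ‖∑ j ∈ Finset.range N, (f ((j : ℤ) + b) - f ((j : ℤ) + b + 1))‖ ≤ 2 := by
  have h : ∑ j ∈ Finset.range N, (f ((j : ℤ) + b) - f ((j : ℤ) + b + 1)) = f b - f ((N : ℤ) + b) := by
    induction N with
    | zero => simp
    | succ n ih =>
      rw [Finset.sum_range_succ, ih]
      have : ((n + 1 : ℕ) : ℤ) + b = (n : ℤ) + b + 1 := by push_cast; ring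
      rw [this]; ring
  rw [h]
  calc ‖f b - f ((N : ℤ) + b)‖ ≤ ‖f b‖ + ‖f ((N : ℤ) + b)‖ := norm_sub_le _ _
    _ ≤ 1 + 1 := add_le_add (hf _) (hf _)
    _ = 2 := by norm_num

lemma tele_nat (f : ℤ → ℂ) (hf : ∀ k, ‖f k‖ ≤ 1) (N n : ℕ) (b : ℤ) :
    ‖∑ j ∈ Finset.range N, (f ((j : ℤ) + b) - f ((j : ℤ) + b + n))‖ ≤ 2 * n := by
  induction n with
  | zero => simp
  | succ n ih =>
    have e : ∑ j ∈ Finset.range N, (f ((j : ℤ) + b) - f ((j : ℤ) + b + (n + 1 : ℕ)))
        = (∑ j ∈ Finset.range N, (f ((j : ℤ) + b) - f ((j : ℤ) + b + n)))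
          + ∑ j ∈ Finset.range N, (f ((j : ℤ) + (b + n)) - f ((j : ℤ) + (b + n) + 1)) := by
      rw [← Finset.sum_add_distrib]
      refine Finset.sum_congr rfl fun j _ => ?_
      have h1 : (j : ℤ) + b + (n + 1 : ℕ) = (j : ℤ) + (b + n) + 1 := by push_cast; ring
      have h2 : (j : ℤ) + b + n = (j : ℤ) + (b + n) := by ring
      rw [h1, h2]; ring
    rw [e]
    refine (norm_add_le _ _).trans ?_
    have := tele_one f hf N (b + n)
    push_cast
    linarith

lemma tele_int (f : ℤ → ℂ) (hf : ∀ k, ‖f k‖ ≤ 1) (N : ℕ) (a b : ℤ) :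
    ‖∑ j ∈ Finset.range N, (f ((j : ℤ) + b) - f ((j : ℤ) + b + a))‖ ≤ 2 * |(a : ℝ)| := by
  rcases le_total 0 a with h | h
  · obtain ⟨n, rfl⟩ := Int.eq_ofNat_of_zero_le h
    have := tele_nat f hf N n b
    simpa using this
  · obtain ⟨n, hn⟩ := Int.eq_ofNat_of_zero_le (neg_nonneg.mpr h)
    have ha : a = -(n : ℤ) := by omega
    subst ha
    have := tele_nat f hf N n (b - n)
    rw [← norm_neg, ← Finset.sum_neg_distrib]
    have e : ∀ j ∈ Finset.range N, -(f ((j : ℤ) + b) - f ((j : ℤ) + b + -(n : ℤ)))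
        = f ((j : ℤ) + (b - n)) - f ((j : ℤ) + (b - n) + n) := by
      intro j _
      have h1 : (j : ℤ) + b + -(n : ℤ) = (j : ℤ) + (b - n) := by ring
      have h2 : (j : ℤ) + (b - n) + n = (j : ℤ) + b := by ring
      rw [h1, h2]; ring
    rw [Finset.sum_congr rfl e]
    simpa using this

lemma sum_Icc_symm (F : ℤ → ℂ) (h0 : F 0 = 0) (M : ℕ) :
    ∑ k ∈ Finset.Icc (-(M : ℤ)) M, F k
      = ∑ j ∈ Finset.range M, (F ((j : ℤ) + 1) + F (-((j : ℤ) + 1))) := by
  induction M with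
  | zero => simp [h0]
  | succ n ih =>
    rw [Finset.sum_range_succ, ← ih]
    have hset : Finset.Icc (-((n + 1 : ℕ) : ℤ)) ((n + 1 : ℕ) : ℤ)
        = insert ((n : ℤ) + 1) (insert (-((n : ℤ) + 1)) (Finset.Icc (-(n : ℤ)) n)) := by
      ext k
      simp only [Finset.mem_insert, Finset.mem_Icc]
      push_cast
      omega
    rw [hset, Finset.sum_insert, Finset.sum_insert]
    · ring
    · simp
    · simp only [Finset.mem_insert, Finset.mem_Icc]
      omega

/-! ### The test sequences -/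

/-- The phase that moves the common point of the lines to the origin. -/
noncomputable def ph (ts xs : ℝ) (k : ℤ) : ℂ :=
  Complex.exp ((-((k : ℝ) ^ 2 * ts + (k : ℝ) * xs) : ℝ) * Complex.I)

/-- The test coefficients: odd, of modulus one for `1 ≤ |k| ≤ N`. -/
noncomputable def tc (ts xs : ℝ) (N : ℕ) (k : ℤ) : ℂ :=
  if 1 ≤ k ∧ k ≤ N then ph ts xs k else if 1 ≤ -k ∧ -k ≤ N then -ph ts xs k else 0

lemma norm_ph (ts xs : ℝ) (k : ℤ) : ‖ph ts xs k‖ = 1 := by
  unfold ph; exact Complex.norm_exp_ofReal_mul_I _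

lemma tc_zero_of_large (ts xs : ℝ) (N : ℕ) (k : ℤ) (h : ¬ (k ∈ Finset.Icc (-(N : ℤ)) N)) :
    tc ts xs N k = 0 := by
  unfold tc
  simp only [Finset.mem_Icc] at h
  rw [if_neg (by omega), if_neg (by omega)]

lemma summable_tc (ts xs : ℝ) (N : ℕ) : Summable (fun k => ‖tc ts xs N k‖ ^ 2) :=
  summable_of_ne_finset_zero (s := Finset.Icc (-(N : ℤ)) N) fun k hk => by
    rw [tc_zero_of_large ts xs N k hk]; simp

lemma le_tsum_tc (ts xs : ℝ) (N : ℕ) :
    (N : ℝ) ≤ ∑' k, (‖tc ts xs N k‖ ^ 2 + ‖(0 : ℤ → ℂ) k‖ ^ 2) := by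
  have hs : Summable (fun k => ‖tc ts xs N k‖ ^ 2 + ‖(0 : ℤ → ℂ) k‖ ^ 2) := by
    simpa using summable_tc ts xs N
  have h := hs.sum_le_tsum (Finset.Icc (1 : ℤ) N) (fun k _ => by positivity)
  refine le_trans ?_ h
  have : ∀ k ∈ Finset.Icc (1 : ℤ) N, ‖tc ts xs N k‖ ^ 2 + ‖(0 : ℤ → ℂ) k‖ ^ 2 = 1 := by
    intro k hk
    rw [Finset.mem_Icc] at hk
    unfold tc
    rw [if_pos hk, norm_ph]; simp
  rw [Finset.sum_congr rfl this]
  simp

/-- On a line through `(ts, xs)` the mode `k` becomes `± e^{i (k² - a k) τ}`. -/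
lemma mode_line (ts xs : ℝ) (N : ℕ) (a : ℤ) (t x : ℝ) (h : x - xs = -(a : ℝ) * (t - ts)) (k : ℤ) :
    mode (tc ts xs N) 0 k t x =
      (if 1 ≤ k ∧ k ≤ N then 1 else if 1 ≤ -k ∧ -k ≤ N then -1 else 0) *
        Complex.exp ((((k : ℝ) ^ 2 - a * k) * (t - ts) : ℝ) * Complex.I) := by
  unfold mode
  split_ifs with h0 h1 h2 h3 h4
  · omega
  · omega
  · subst h0; simp [tc]
  · unfold tc ph
    rw [if_pos h3]
    simp only [Pi.zero_apply, zero_mul, add_zero, one_mul]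
    rw [← Complex.exp_add, ← Complex.exp_add, ← add_mul, ← add_mul]
    congr 2
    norm_cast
    have : x = xs - a * (t - ts) := by linarith
    rw [this]; push_cast; ring
  · unfold tc ph
    rw [if_neg h3, if_pos h4]
    simp only [Pi.zero_apply, zero_mul, add_zero, neg_mul, one_mul]
    rw [neg_inj, ← Complex.exp_add, ← Complex.exp_add, ← add_mul, ← add_mul]
    congr 2
    norm_cast
    have : x = xs - a * (t - ts) := by linarith
    rw [this]; push_cast; ring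
  · unfold tc
    rw [if_neg h3, if_neg h4]; simp

lemma mode_tc_zero (ts xs : ℝ) (N : ℕ) (k : ℤ) (hk : tc ts xs N k = 0) (t x : ℝ) :
    mode (tc ts xs N) 0 k t x = 0 := by
  unfold mode
  split_ifs with h0
  · subst h0; simp [hk]
  · simp [hk]

lemma partialSum_eq (ts xs : ℝ) (N M : ℕ) (hM : N ≤ M) (t x : ℝ) :
    partialSum (tc ts xs N) 0 M t x = partialSum (tc ts xs N) 0 N t x := by
  unfold partialSum
  refine (Finset.sum_subset ?_ ?_).symm
  · intro k hk
    rw [Finset.mem_Icc] at hk ⊢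
    omega
  · intro k _ hk
    exact mode_tc_zero ts xs N k (tc_zero_of_large ts xs N k hk) t x

lemma norm_partialSum (ts xs : ℝ) (N : ℕ) (a : ℤ) (t x : ℝ) (h : x - xs = -(a : ℝ) * (t - ts)) :
    ‖partialSum (tc ts xs N) 0 N t x‖ ≤ 2 * |(a : ℝ)| := by
  unfold partialSum
  rw [sum_Icc_symm (fun k => mode (tc ts xs N) 0 k t x)
    (mode_tc_zero ts xs N 0 (by simp [tc]) t x) N]
  set f : ℤ → ℂ := fun k => Complex.exp ((((k : ℝ) ^ 2 - a * k) * (t - ts) : ℝ) * Complex.I)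
  have hf : ∀ k, ‖f k‖ ≤ 1 := fun k => by
    simp only [f]; rw [Complex.norm_exp_ofReal_mul_I]
  have hfa : ∀ k, f (-k) = f (k + a) := by
    intro k
    simp only [f]
    congr 2
    push_cast
    ring
  have e : ∀ j ∈ Finset.range N,
      mode (tc ts xs N) 0 ((j : ℤ) + 1) t x + mode (tc ts xs N) 0 (-((j : ℤ) + 1)) t x
        = f ((j : ℤ) + 1) - f ((j : ℤ) + 1 + a) := by
    intro j hj
    rw [Finset.mem_range] at hj
    rw [mode_line ts xs N a t x h, mode_line ts xs N a t x h, if_pos (by omega), if_neg (by omega),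
      if_pos (by omega), ← hfa]
    simp only [f]
    push_cast
    ring
  rw [Finset.sum_congr rfl e]
  exact tele_int f hf N a 1

lemma continuous_partialSum (ts xs : ℝ) (N : ℕ) (a t₀ x₀ : ℝ) :
    Continuous fun t => partialSum (tc ts xs N) 0 N (t₀ + t) (x₀ - a * t) := by
  unfold partialSum
  refine continuous_finsetSum _ fun k _ => ?_
  unfold mode
  split_ifs
  · fun_prop
  · fun_prop

/-- Concurrent lines of integer speed never satisfy the inverse inequality. -/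
theorem concurrent {m : ℕ} (a : Fin m → ℤ) (t₀ x₀ : Fin m → ℝ) (T : ℝ) (hT : 0 < T)
    (hc : ∃ ts xs : ℝ, ∀ i, x₀ i - xs = -(a i : ℝ) * (t₀ i - ts)) :
    ¬ InverseInequality a t₀ x₀ T := by
  rintro ⟨α, hα, H⟩
  obtain ⟨ts, xs, hc⟩ := hc
  have key : ∀ N : ℕ, (N : ℝ) ≤ α * ∑ i, T * (2 * |(a i : ℝ)|) ^ 2 := by
    intro N
    set v : Fin m → ℝ → ℂ := fun i t =>
      partialSum (tc ts xs N) 0 N (t₀ i + t) (x₀ i - a i * t)
    have hb : ∀ i t, ‖v i t‖ ≤ 2 * |(a i : ℝ)| := fun i t =>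
      norm_partialSum ts xs N (a i) _ _ (by have := hc i; linarith)
    have hcont : ∀ i, Continuous (v i) := fun i => continuous_partialSum ts xs N _ _ _
    have htr : ∀ i, IsTrace (tc ts xs N) 0 (a i) (t₀ i) (x₀ i) (v i) := by
      intro i S _
      constructor
      · refine MemLp.of_bound (hcont i).aestronglyMeasurable (2 * |(a i : ℝ)|) ?_
        exact Filter.Eventually.of_forall fun t => hb i t
      · refine tendsto_const_nhds.congr' ?_
        filter_upwards [eventually_ge_atTop N] with M hM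
        have : (fun t => partialSum (tc ts xs N) 0 M (t₀ i + t) (x₀ i - a i * t) - v i t)
            = fun _ => 0 := by
          funext t
          rw [partialSum_eq ts xs N M hM]
          simp [v]
        rw [this]; simp
    have h1 := H (tc ts xs N) 0 (summable_tc ts xs N) (by simp) v htr
    refine (le_tsum_tc ts xs N).trans (h1.trans ?_)
    refine mul_le_mul_of_nonneg_left ?_ hα.le
    refine Finset.sum_le_sum fun i _ => ?_
    have h2 : ∫ t in (0 : ℝ)..T, ‖v i t‖ ^ 2 ≤ ∫ _t in (0 : ℝ)..T, (2 * |(a i : ℝ)|) ^ 2 := by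
      refine intervalIntegral.integral_mono_on hT.le ?_ ?_ ?_
      · exact ((hcont i).norm.pow 2).intervalIntegrable _ _
      · exact intervalIntegrable_const
      · intro t _
        exact pow_le_pow_left₀ (norm_nonneg _) (hb i t) 2
    refine h2.trans (le_of_eq ?_)
    simp
  obtain ⟨N, hN⟩ := exists_nat_gt (α * ∑ i, T * (2 * |(a i : ℝ)|) ^ 2)
  exact absurd (key N) (not_le.mpr hN)

/-- Two lines of distinct integer speeds never satisfy the inverse inequality. -/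
theorem two_lines (a : Fin 2 → ℤ) (ha : a 0 ≠ a 1) (t₀ x₀ : Fin 2 → ℝ) (T : ℝ) (hT : 0 < T) :
    ¬ InverseInequality a t₀ x₀ T := by
  refine concurrent a t₀ x₀ T hT ?_
  have hne : (a 0 : ℝ) - a 1 ≠ 0 := by
    rw [sub_ne_zero]; exact_mod_cast ha
  refine ⟨(x₀ 0 - x₀ 1 + a 0 * t₀ 0 - a 1 * t₀ 1) / (a 0 - a 1),
    x₀ 0 + a 0 * (t₀ 0 - (x₀ 0 - x₀ 1 + a 0 * t₀ 0 - a 1 * t₀ 1) / (a 0 - a 1)), ?_⟩
  intro i
  fin_cases i
  · simp
  · simp only [Fin.mk_one]
    field_simp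
    ring

end Pool.Agent.X146.BM
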